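import Pool.Agent.X170.Skew.Main

/-!
# Every superattracting skew germ has an analytic normal form
-/

set_option autoImplicit false
set_option linter.unusedVariables false

open Set Filter Topology Complex Metric

namespace Pool.Agent.Results.MP_8db26a_an.NormalForm

open Pool.Agent.X170.Skew

theorem result (c d : ℕ) (hc : 2 ≤ c) (hd : 2 ≤ d) (h : ℂ × ℂ → ℂ)
    (hh : ∀ᶠ p in 𝓝 (0 : ℂ × ℂ), DifferentiableAt ℂ h p) :
    ∃ (Φ : ℂ × ℂ → ℂ × ℂ) (H : ℕ → ℂ → ℂ),
      Φ 0 = 0 ∧ (∀ᶠ p in 𝓝 (0 : ℂ × ℂ), DifferentiableAt ℂ Φ p) ∧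
      Function.Bijective (fderiv ℂ Φ 0) ∧
      (∀ j, AnalyticAt ℂ (H j) 0 ∧ H j 0 = 0) ∧
      ∀ᶠ p in 𝓝 (0 : ℂ × ℂ), Φ (p.1 ^ d, p.2 ^ c + p.1 * h p) =
        ((Φ p).1 ^ d, (Φ p).2 ^ c + ∑ j ∈ Finset.range c, H j (Φ p).1 * (Φ p).2 ^ j) := by
  -- a small polydisc on which `h` is bounded and holomorphic
  have hcont : ContinuousAt h 0 := (hh.self_of_nhds).continuousAt
  have hbd : ∀ᶠ p in 𝓝 (0 : ℂ × ℂ), ‖h p‖ < ‖h 0‖ + 1 :=
    hcont.norm.eventually (gt_mem_nhds (by linarith))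
  obtain ⟨ε, hε, hball⟩ := Metric.eventually_nhds_iff.1 (hh.and hbd)
  set r : ℝ := min ε (1 / 2) with hr
  have hr0 : 0 < r := lt_min hε (by norm_num)
  have hr1 : r < 1 := (min_le_right _ _).trans_lt (by norm_num)
  have hDD : ∀ p ∈ DD r r, dist p 0 < ε := by
    intro p hp
    rw [dist_zero_right, Prod.norm_def]
    exact max_lt (hp.1.trans_le (min_le_left _ _)) (hp.2.trans_le (min_le_left _ _))
  have hB : Bd r r (‖h 0‖ + 1) h :=
    ⟨fun p hp => (hball (hDD p hp)).1.differentiableWithinAt, fun p hp => (hball (hDD p hp)).2.le⟩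
  obtain ⟨s, A, g, hs0, hss, hs1, hg, hmaps, hfix⟩ := exists_fixed hc hd hr0 hr0 hr1 hB
  have hmem : DD s r ∈ 𝓝 (0 : ℂ × ℂ) :=
    (isOpen_DD s r).mem_nhds ⟨by simpa using hs0, by simpa using hr0⟩
  have h0mem : (0 : ℂ × ℂ) ∈ DD s r := mem_of_mem_nhds hmem
  have hQ : ∀ j, Bd s r ((2 / r) ^ j * A) (Qop^[j] g) := fun j => Qop_iter hg hs0 hr0 j
  have hψd : DifferentiableOn ℂ (psi c g) (DD s r) :=
    (differentiableOn_const _).mul (hQ (c - 1)).diff
  set Φ : ℂ × ℂ → ℂ × ℂ := fun p => (p.1, p.2 + p.1 * psi c g p) with hΦ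
  set H : ℕ → ℂ → ℂ := fun j z => if j < c - 1 then z * (Qop^[j] g) (z, 0) else 0 with hH
  have hΦd : ∀ p ∈ DD s r, DifferentiableAt ℂ Φ p := by
    intro p hp
    have h1 : DifferentiableAt ℂ (psi c g) p := (hψd p hp).differentiableAt ((isOpen_DD s r).mem_nhds hp)
    rw [hΦ]
    fun_prop
  refine ⟨Φ, H, ?_, ?_, ?_, ?_, ?_⟩
  · simp [hΦ]
  · filter_upwards [hmem] with p hp using hΦd p hp
  · -- the derivative at the origin is `(a, b) ↦ (a, b + ψ(0) a)`
    have h1 : DifferentiableAt ℂ (psi c g) 0 := (hψd 0 h0mem).differentiableAt hmem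
    have h2 : HasFDerivAt Φ ((ContinuousLinearMap.fst ℂ ℂ ℂ).prod
        (ContinuousLinearMap.snd ℂ ℂ ℂ + ((0 : ℂ × ℂ).1 • fderiv ℂ (psi c g) 0 +
          psi c g 0 • ContinuousLinearMap.fst ℂ ℂ ℂ))) 0 := by
      have h3 : HasFDerivAt (fun p : ℂ × ℂ => p.1) (ContinuousLinearMap.fst ℂ ℂ ℂ) 0 :=
        hasFDerivAt_fst
      have h4 : HasFDerivAt (fun p : ℂ × ℂ => p.2) (ContinuousLinearMap.snd ℂ ℂ ℂ) 0 :=
        hasFDerivAt_snd
      exact h3.prodMk (h4.add (h3.mul h1.hasFDerivAt))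
    rw [h2.fderiv]
    constructor
    · intro a b hab
      have e1 := congrArg Prod.fst hab
      have e2 := congrArg Prod.snd hab
      simp at e1 e2
      rw [e1] at e2
      exact Prod.ext e1 (by simpa using e2)
    · intro b
      refine ⟨(b.1, b.2 - psi c g 0 * b.1), ?_⟩
      simp
  · intro j
    rw [hH]
    by_cases hj : j < c - 1
    · simp only [hj, if_true]
      refine ⟨?_, by simp⟩
      have h1 : DifferentiableOn ℂ (fun z : ℂ => z * (Qop^[j] g) (z, 0)) {z : ℂ | ‖z‖ < s} := by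
        refine DifferentiableOn.mul differentiableOn_id ?_
        exact (hQ j).diff.comp (f := fun z : ℂ => (z, (0 : ℂ))) (by fun_prop)
          fun z hz => ⟨hz, by simpa using hr0⟩
      have hopen : IsOpen {z : ℂ | ‖z‖ < s} := isOpen_lt continuous_norm continuous_const
      exact h1.analyticAt (hopen.mem_nhds (by simpa using hs0))
    · simp only [hj, if_false]
      exact ⟨analyticAt_const, trivial⟩
  · filter_upwards [hmem] with p hp
    obtain ⟨z, w⟩ := p
    have key := hfix _ hp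
    have hdiv := division hg hs0 hr0 (c - 1) _ hp
    have hcne : (c : ℂ) ≠ 0 := by
      have : c ≠ 0 := by omega
      exact_mod_cast this
    have hψ : (Qop^[c - 1] g) (z, w) = c * psi c g (z, w) := by
      unfold psi
      rw [← mul_assoc, mul_inv_cancel₀ hcne, one_mul]
    rw [hψ] at hdiv
    have hsum : ∑ j ∈ Finset.range c, H j z * (w + z * psi c g (z, w)) ^ j =
        z * (∑ j ∈ Finset.range (c - 1), (Qop^[j] g) (z, 0) * w ^ j) +
        z ^ 2 * ∑ j : Fin (c - 1), (Qop^[j] g) (z, 0) * aP j z w (psi c g (z, w)) := by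
      obtain ⟨m, rfl⟩ : ∃ m, c = m + 1 := ⟨c - 1, by omega⟩
      simp only [Nat.add_sub_cancel]
      rw [Finset.sum_range_succ]
      have h1 : H m z = 0 := by simp [hH]
      rw [h1, zero_mul, add_zero, ← Finset.sum_range
        (fun j => (Qop^[j] g) (z, 0) * aP j z w (psi (m + 1) g (z, w))), Finset.mul_sum,
        Finset.mul_sum, Nat.add_sub_cancel, ← Finset.sum_add_distrib]
      refine Finset.sum_congr rfl fun j hj => ?_
      have h2 : H j z = z * (Qop^[j] g) (z, 0) := by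
        have : j < m := Finset.mem_range.1 hj
        simp [hH, this]
      rw [h2, aP_spec]
      ring
    refine Prod.ext rfl ?_
    show w ^ c + z * h (z, w) + z ^ d * psi c g (z ^ d, w ^ c + z * h (z, w)) =
      (w + z * psi c g (z, w)) ^ c + ∑ j ∈ Finset.range c, H j z * (w + z * psi c g (z, w)) ^ j
    rw [hsum, bP_spec]
    unfold TT PP uu F at key
    simp only at key hdiv
    obtain ⟨m, rfl⟩ : ∃ m, d = m + 1 := ⟨d - 1, by omega⟩
    simp only [Nat.add_sub_cancel] at key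
    rw [hdiv] at key
    linear_combination z * key

end Pool.Agent.Results.MP_8db26a_an.NormalForm
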